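import Pool.Agent.H64.EV.Targets

/-!
# MP_fd35e1_ag: row OMU of evn_modules, composition of endomorphisms of the tensors of order two
(adapted from the row MUL of nil_modules, Pool/Agent/H18/NL/MUL.lean)
-/

set_option autoImplicit false

open Matrix Pool.Agent.H64.CC Pool.Agent.H2.NL Pool.Agent.H64.EV

namespace Pool.Agent.H42.EV

theorem pf_OMU : T_OMU := by
  intro K _ _ I _ _ F A hA t ht t' ht'
  have h4 : tp (2 * 2) t t' ∈ A (2 + 2) := hA.tp 2 2 t t' ht ht'
  have h3 : con F.η 3 (tp 4 t t') ∈ A 3 := hA.con 3 3 _ h4 (by norm_num)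
  have h2 : con F.η 2 (con F.η 3 (tp 4 t t')) ∈ A 2 := hA.con 2 2 _ h3 (by norm_num)
  refine ⟨con F.η 2 (con F.η 3 (tp 4 t t')), h2, ?_⟩
  have key : ∀ a b c d : I, con F.η 2 (con F.η 3 (tp 4 t t')) [a, b, c, d] =
      ∑ x, ∑ y, F.c x * F.c y * (t [a, b, x, y] * t' [F.st y, F.st x, c, d]) := by
    intro a b c d
    have e1 := F.con_append [a, b] (con F.η 3 (tp 4 t t')) [c, d]
    have e1' : con F.η 2 (con F.η 3 (tp 4 t t')) [a, b, c, d] =
        ∑ x, F.c x * con F.η 3 (tp 4 t t') [a, b, x, F.st x, c, d] := e1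
    rw [e1']
    refine Finset.sum_congr rfl fun x _ => ?_
    have e2 := F.con_append [a, b, x] (tp 4 t t') [F.st x, c, d]
    have e2' : con F.η 3 (tp 4 t t') [a, b, x, F.st x, c, d] =
        ∑ y, F.c y * tp 4 t t' [a, b, x, y, F.st y, F.st x, c, d] := e2
    rw [e2', Finset.mul_sum]
    refine Finset.sum_congr rfl fun y _ => ?_
    have e3 : tp 4 t t' [a, b, x, y, F.st y, F.st x, c, d] =
        t [a, b, x, y] * t' [F.st y, F.st x, c, d] := rfl
    rw [e3]
    ring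
  ext ⟨a, b⟩ ⟨p, q⟩
  rw [Matrix.mul_apply, Fintype.sum_prod_type]
  show con F.η 2 (con F.η 3 (tp 4 t t')) [a, b, F.st q, F.st p] * (F.c (F.st p) * F.c (F.st q)) =
    ∑ u, ∑ v, (t [a, b, F.st v, F.st u] * (F.c (F.st u) * F.c (F.st v))) *
      (t' [u, v, F.st q, F.st p] * (F.c (F.st p) * F.c (F.st q)))
  rw [key, Finset.sum_comm, ← F.sum_st, Finset.sum_mul]
  refine Finset.sum_congr rfl fun u _ => ?_
  rw [← F.sum_st, Finset.sum_mul]
  refine Finset.sum_congr rfl fun v _ => ?_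
  rw [F.st_st, F.st_st]
  ring

end Pool.Agent.H42.EV
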