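import Pool.Agent.H64.EV.Targets

/-! Board `evn_modules`, row OPT: partial traces (adapted from Pool/Agent/H79/NIL/PTR.lean). -/

set_option autoImplicit false

open Matrix Pool.Agent.H64.CC Pool.Agent.H2.NL Pool.Agent.H64.EV

namespace Pool.Agent.H42.EV

theorem pf_OPT : T_OPT := by
  intro K _ _ I _ _ F A hA t ht
  refine ⟨con F.η 1 t, hA.con 1 1 t ht (by norm_num), fun a b => ?_⟩
  have h := F.con_append [a] t [F.st b]
  have h1 : con F.η 1 t [a, F.st b] = ∑ x, F.c x * t [a, x, F.st x, F.st b] := h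
  rw [h1, Finset.sum_mul]
  unfold OForm.pt2 OForm.M4
  rw [Matrix.of_apply]
  refine Finset.sum_congr rfl fun y _ => ?_
  rw [Matrix.of_apply, ← F.sg_c_st y]
  ring

end Pool.Agent.H42.EV
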